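import Pool.Agent.GAP.Germ

/-!
# GPL (MP_21ca32_ag): cyclic quotient singularities with minimal log discrepancy close to one

Definitions.
-/

namespace Pool.Agent.GPL

open MvPolynomial

universe u

/-- The product of the first `n` Sylvester numbers `2, 3, 7, 43, ...`: `1, 2, 6, 42, 1806, ...`;
the `i`-th Sylvester number (`i = 0, 1, ...`) is `S i + 1`. -/
def S : ℕ → ℕ
  | 0 => 1
  | n + 1 => S n * (S n + 1)

/-- `S ^ 3 + S ^ 2 + 1`. -/
def R (e : ℕ) : ℕ := S e ^ 3 + S e ^ 2 + 1

/-- The order `r = S ^ 4 + S ^ 3 + S` of the group (in dimension `e + 2`). -/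
def ord (e : ℕ) : ℕ := S e * R e

/-- The weights: `S ^ 3 - S + 1`, `S ^ 2 + S - 1`, and `r / s` for the first `e` Sylvester numbers
`s`. -/
def wt (e : ℕ) : Fin (e + 2) → ℕ :=
  Fin.cons (S e ^ 3 + 1 - S e) (Fin.cons (S e ^ 2 + S e - 1) fun i : Fin e => ord e / (S i + 1))

/-- The ring of the polynomials in `x_1, ..., x_d` that are invariant under the group of the `r`-th
roots of unity `ζ`, acting by `x_i ↦ ζ ^ (a i) x_i`. -/
def inv (k : Type u) [Field k] {d : ℕ} (r : ℕ) (a : Fin d → ℕ) :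
    Subalgebra k (MvPolynomial (Fin d) k) where
  carrier := {p | ∀ ζ : k, ζ ^ r = 1 → aeval (fun i => C (ζ ^ a i) * X i) p = p}
  mul_mem' := by
    intro p q hp hq ζ h
    rw [map_mul, hp ζ h, hq ζ h]
  add_mem' := by
    intro p q hp hq ζ h
    rw [map_add, hp ζ h, hq ζ h]
  algebraMap_mem' := by
    intro c ζ h
    exact AlgHom.commutes _ c

/-- The ideal of the image `P` of the origin in the quotient. -/
noncomputable def pt (k : Type u) [Field k] {d : ℕ} (r : ℕ) (a : Fin d → ℕ) :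
    Ideal (inv k r a) :=
  (Ideal.span (Set.range fun i : Fin d => (X i : MvPolynomial (Fin d) k))).comap (inv k r a).val

/-- The diagonal matrices. -/
def phi (k : Type u) [Field k] {n : ℕ} (a : Fin n → ℕ) : kˣ →* (Fin n → kˣ) where
  toFun ζ := fun i => ζ ^ a i
  map_one' := by
    ext i
    simp
  map_mul' ζ η := by
    ext i
    simp [mul_pow]

/-- The group of the diagonal matrices `(ζ ^ (a i))_i`, `ζ ^ r = 1`. -/
def grp (k : Type u) [Field k] {n : ℕ} (r : ℕ) (a : Fin n → ℕ) : Subgroup (Fin n → kˣ) :=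
  (rootsOfUnity r k).map (phi k a)

/-- The first coordinate doubled. -/
def dbl {m : ℕ} (a : Fin (m + 1) → ℕ) : Fin (m + 2) → ℕ := Fin.cons (a 0) a

end Pool.Agent.GPL
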