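import Pool.Agent.GPL.Defs
import Pool.Agent.GAP.Dua

/-!
# GPL, module DU: the dual lattice of the diagonal group

`mem_perp_of_dvd`: `r ∣ ∑ a_i m_i` gives `m ∈ perp`.  `dual_cong`: the vectors `r e_i` and
`a_i e_0 - a_0 e_i`, and an inverse of `a_0` modulo `r`.  `dual_mem`: a primitive `r`-th root of unity.
-/

namespace Pool.Agent.GPL

open Pool.Agent.GAP

universe u

variable (k : Type u) [Field k] {m : ℕ}

theorem prod_zpow_sum {G ι : Type*} [CommGroup G] (s : Finset ι) (x : G) (f : ι → ℤ) :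
    ∏ i ∈ s, x ^ f i = x ^ ∑ i ∈ s, f i := by
  classical
  induction s using Finset.induction_on with
  | empty => simp
  | insert i s hi ih => rw [Finset.prod_insert hi, Finset.sum_insert hi, zpow_add, ih]

theorem prod_phi {n : ℕ} (a : Fin n → ℕ) (ζ : kˣ) (v : Fin n → ℤ) :
    ∏ i, (phi k a ζ i) ^ v i = ζ ^ ∑ i, ((a i : ℕ) : ℤ) * v i := by
  rw [← prod_zpow_sum]
  refine Finset.prod_congr rfl fun i _ => ?_
  show (ζ ^ a i) ^ v i = ζ ^ (((a i : ℕ) : ℤ) * v i)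
  rw [zpow_mul, zpow_natCast]

theorem mem_perp_of_dvd {n r : ℕ} (a : Fin n → ℕ) {v : Fin n → ℤ}
    (h : (r : ℤ) ∣ ∑ i, ((a i : ℕ) : ℤ) * v i) : v ∈ perp (grp k r a) := by
  rintro g ⟨ζ, hζ, rfl⟩
  rw [prod_phi]
  obtain ⟨c, hc⟩ := h
  have h1 : ζ ^ r = 1 := by
    have := hζ
    rwa [SetLike.mem_coe, mem_rootsOfUnity] at this
  rw [hc, zpow_mul, zpow_natCast, h1, one_zpow]

theorem pair_two {n : ℕ} (w : Fin n → ℝ) {i j : Fin n} (hij : i ≠ j) (x y : ℤ) :
    pair w (Pi.single i x + Pi.single j y) = w i * x + w j * y := by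
  unfold pair
  have h1 : ∀ l : Fin n, w l * (((Pi.single i x + Pi.single j y : Fin n → ℤ) l : ℤ) : ℝ) =
      (if l = i then w i * x else 0) + (if l = j then w j * y else 0) := by
    intro l
    rw [Pi.add_apply]
    by_cases h2 : l = i
    · subst h2
      rw [Pi.single_eq_same, Pi.single_eq_of_ne hij, if_pos rfl, if_neg hij]
      push_cast; ring
    · rw [Pi.single_eq_of_ne h2, if_neg h2]
      by_cases h3 : l = j
      · subst h3
        rw [Pi.single_eq_same, if_pos rfl]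
        push_cast; ring
      · rw [Pi.single_eq_of_ne h3, if_neg h3]
        push_cast; ring
  rw [Finset.sum_congr rfl fun l _ => h1 l, Finset.sum_add_distrib,
    Finset.sum_ite_eq' Finset.univ i, Finset.sum_ite_eq' Finset.univ j,
    if_pos (Finset.mem_univ _), if_pos (Finset.mem_univ _)]

theorem sum_two {n : ℕ} (a : Fin n → ℕ) {i j : Fin n} (hij : i ≠ j) (x y : ℤ) :
    ∑ l, ((a l : ℕ) : ℤ) * (Pi.single i x + Pi.single j y : Fin n → ℤ) l = a i * x + a j * y := by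
  have h1 : ∀ l : Fin n, ((a l : ℕ) : ℤ) * (Pi.single i x + Pi.single j y : Fin n → ℤ) l =
      (if l = i then (a i : ℤ) * x else 0) + (if l = j then (a j : ℤ) * y else 0) := by
    intro l
    rw [Pi.add_apply]
    by_cases h2 : l = i
    · subst h2
      rw [Pi.single_eq_same, Pi.single_eq_of_ne hij, if_pos rfl, if_neg hij]
      ring
    · rw [Pi.single_eq_of_ne h2, if_neg h2]
      by_cases h3 : l = j
      · subst h3
        rw [Pi.single_eq_same, if_pos rfl]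
        ring
      · rw [Pi.single_eq_of_ne h3, if_neg h3]
        ring
  rw [Finset.sum_congr rfl fun l _ => h1 l, Finset.sum_add_distrib,
    Finset.sum_ite_eq' Finset.univ i, Finset.sum_ite_eq' Finset.univ j,
    if_pos (Finset.mem_univ _), if_pos (Finset.mem_univ _)]

/-- The points of the dual lattice are congruent to the multiples of `a / r`. -/
theorem dual_cong {r : ℕ} (hr : 0 < r) (a : Fin (m + 1) → ℕ) (hco : Nat.Coprime (a 0) r)
    {w : Fin (m + 2) → ℝ} (hw : w ∈ Dual (perp (grp k r (dbl a)))) :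
    ∃ (z : ℤ) (y : Fin (m + 2) → ℤ), ∀ i, w i = (y i : ℝ) / r ∧
      (r : ℤ) ∣ y i - z * (dbl a i : ℕ) := by
  have hr0 : (r : ℝ) ≠ 0 := by exact_mod_cast hr.ne'
  -- the vectors `r e_i`
  have h1 : ∀ i, ∃ y : ℤ, w i * r = y := by
    intro i
    obtain ⟨j, hj⟩ : ∃ j : Fin (m + 2), i ≠ j := by
      by_cases h : i = 0
      · exact ⟨1, by rw [h]; exact Fin.zero_ne_one⟩
      · exact ⟨0, h⟩
    obtain ⟨z, hz⟩ := hw (Pi.single i (r : ℤ) + Pi.single j 0) (mem_perp_of_dvd k (dbl a) (by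
      rw [sum_two _ hj]
      exact ⟨dbl a i, by ring⟩))
    rw [pair_two _ hj] at hz
    refine ⟨z, ?_⟩
    rw [← hz]
    push_cast
    ring
  choose y hy using h1
  have hco' : IsCoprime ((a 0 : ℕ) : ℤ) (r : ℤ) := Nat.isCoprime_iff_coprime.2 hco
  obtain ⟨b, c, hbc⟩ := hco'
  have hd0 : dbl a 0 = a 0 := rfl
  refine ⟨b * y 0, y, fun i => ⟨?_, ?_⟩⟩
  · rw [eq_div_iff hr0]
    exact hy i
  · -- `r ∣ a_i y_0 - a_0 y_i`
    have h2 : (r : ℤ) ∣ ((a 0 : ℕ) : ℤ) * y i - (dbl a i : ℕ) * y 0 := by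
      by_cases h : (0 : Fin (m + 2)) = i
      · subst h
        rw [hd0, sub_self]
        exact dvd_zero _
      · obtain ⟨z, hz⟩ := hw (Pi.single 0 (-((dbl a i : ℕ) : ℤ)) + Pi.single i ((a 0 : ℕ) : ℤ))
          (mem_perp_of_dvd k (dbl a) (by
            rw [sum_two _ h, hd0]
            exact ⟨0, by ring⟩))
        rw [pair_two _ h] at hz
        refine ⟨z, ?_⟩
        have h3 : ((((a 0 : ℕ) : ℤ) * y i - (dbl a i : ℕ) * y 0 : ℤ) : ℝ) = ((r : ℤ) * z : ℤ) := by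
          push_cast at hz ⊢
          rw [← hz, ← hy i, ← hy 0]
          ring
        exact_mod_cast h3
    obtain ⟨q, hq⟩ := h2
    refine ⟨b * q + c * y i, ?_⟩
    linear_combination (-(y i)) * hbc + b * hq

theorem dual_mem [IsAlgClosed k] [CharZero k] {r : ℕ} (hr : 0 < r) (a : Fin (m + 1) → ℕ) :
    (fun i => ((dbl a i : ℕ) : ℝ) / r) ∈ Dual (perp (grp k r (dbl a))) := by
  intro v hv
  have : NeZero ((r : ℕ) : k) := ⟨by exact_mod_cast hr.ne'⟩
  have : NeZero r := ⟨hr.ne'⟩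
  obtain ⟨ζ, hζ⟩ := HasEnoughRootsOfUnity.exists_primitiveRoot k r
  have hu := hζ.isUnit_unit hr.ne'
  obtain ⟨η, hη⟩ : ∃ η : kˣ, η = (hζ.isUnit hr.ne').unit := ⟨_, rfl⟩
  rw [← hη] at hu
  have h1 : phi k (dbl a) η ∈ grp k r (dbl a) := by
    refine ⟨η, ?_, rfl⟩
    rw [SetLike.mem_coe, mem_rootsOfUnity]
    exact hu.pow_eq_one
  have h2 := hv _ h1
  rw [prod_phi, hu.zpow_eq_one_iff_dvd] at h2
  obtain ⟨z, hz⟩ := h2
  refine ⟨z, ?_⟩
  have hr0 : (r : ℝ) ≠ 0 := by exact_mod_cast hr.ne'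
  have h3 : (∑ i, ((dbl a i : ℕ) : ℝ) * (v i : ℝ)) = (r : ℝ) * z := by exact_mod_cast hz
  unfold pair
  have h4 : ∀ i, ((dbl a i : ℕ) : ℝ) / r * (v i : ℝ) = ((dbl a i : ℕ) : ℝ) * (v i : ℝ) / r := by
    intro i; ring
  rw [Finset.sum_congr rfl fun i _ => h4 i, ← Finset.sum_div, h3]
  field_simp

end Pool.Agent.GPL
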