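import Pool.Agent.GAP.Brg

namespace Pool.Agent.GPL

open MvPolynomial Pool.Agent.GAP

universe u v w

variable {k : Type u} [Field k] {d : ℕ} {B : Type v} [CommRing B] [Algebra k B]

private theorem ml_exists [IsAlgClosed k] [CharZero k] (Y : Hyperquotient k (d + 1) B)
    (K : Type w) [Field K] [Algebra k K] [Algebra Y.A K] [IsScalarTower k Y.A K]
    [IsFractionRing Y.A K] (D : Canonical k K Y.P d) :
    letI := algA Y K
    ∃ D' : CanData k K (toHQ Y).P d, D.mld = D'.mld := by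
  let i1 := algA Y K
  have i2 := towerA Y K
  have i3 := fracA Y K
  obtain ⟨_, h⟩ := exists_ctxK (toHQ Y).toPre K
  obtain ⟨T, hT, hOK⟩ := base h
  obtain ⟨θ, hθ0, hθ1, hθ2⟩ := exists_dual_form hOK D.basis
  have hord : ∀ E : NVal k K, E.ord D.δ = E.ordForm θ := fun E => ord_eq_ordForm E D.δ hθ1 hθ2
  let D' : CanData k K (toHQ Y).P d := ⟨θ, D.m, D.h, hθ0, D.m_pos, D.h_ne, fun E hE => by
    rw [← hord]
    exact D.ord E ((on_iff Y K E).1 hE)⟩
  refine ⟨D', ?_⟩
  have hld : ∀ E, D.logDisc E = D'.logDisc E := by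
    intro E
    unfold Canonical.logDisc CanData.logDisc
    rw [hord]
  unfold Canonical.mld CanData.mld
  apply le_antisymm
  · refine le_iInf ?_
    rintro ⟨E, hE⟩
    rw [← hld]
    exact iInf_le (fun E : {E : NVal k K // IsDivisorOver E Y.P} => D.logDisc E.1)
      ⟨E, (over_iff Y K E).1 hE⟩
  · refine le_iInf ?_
    rintro ⟨E, hE⟩
    rw [hld]
    exact iInf_le (fun E : {E : NVal k K // IsDivisorOver E (toHQ Y).P} => D'.logDisc E.1)
      ⟨E, (over_iff Y K E).2 hE⟩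

theorem hq_lower [IsAlgClosed k] [CharZero k] (Y : Hyperquotient k (d + 1) B) (K : Type w)
    [Field K] [Algebra k K] [Algebra Y.A K] [IsScalarTower k Y.A K] [IsFractionRing Y.A K]
    (D : Canonical k K Y.P d) {t : ℝ} (ht : D.mld < ((t : ℝ) : EReal)) :
    ∃ w ∈ Dual (perp Y.G), (∀ i, 0 < w i) ∧ ∃ a, IsAl Y.f.support w a ∧ a < t := by
  let i1 := algA Y K
  have i2 := towerA Y K
  have i3 := fracA Y K
  obtain ⟨D', hD'⟩ := ml_exists Y K D
  rw [hD'] at ht
  exact mld_lower' (X := toHQ Y) D' ht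

theorem hq_upper [IsAlgClosed k] [CharZero k] (Y : Hyperquotient k (d + 1) B) (K : Type w)
    [Field K] [Algebra k K] [Algebra Y.A K] [IsScalarTower k Y.A K] [IsFractionRing Y.A K]
    (D : Canonical k K Y.P d) {w : Fin (d + 1) → ℝ} (hw : w ∈ Dual (perp Y.G))
    (hpos : ∀ i, 0 < w i) {a : ℝ} (ha : IsAl Y.f.support w a) (ha1 : a ≤ 1) :
    D.mld ≤ ((a : ℝ) : EReal) ∨ D.mld < 0 := by
  let i1 := algA Y K
  have i2 := towerA Y K
  have i3 := fracA Y K
  obtain ⟨D', hD'⟩ := ml_exists Y K D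
  rw [hD']
  exact mld_upper' (X := toHQ Y) D' hw hpos ha ha1

end Pool.Agent.GPL
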