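import Pool.Agent.GPL.Pa
import Pool.Agent.GAP.Cmb

/-! The support, the initial forms and `α` of `x_0 - x_1`. -/

namespace Pool.Agent.GPL

open MvPolynomial Pool.Agent.GAP

universe u

variable (k : Type u) [Field k] (m : ℕ)

private theorem pb_ne : (Finsupp.single 0 1 : Fin (m + 2) →₀ ℕ) ≠ Finsupp.single 1 1 := by
  intro h
  have h1 := DFunLike.congr_fun h 0
  simp at h1

private theorem pb_coeff (e : Fin (m + 2) →₀ ℕ) : coeff e (f0 k m) =
    (if Finsupp.single 0 1 = e then 1 else 0) - (if Finsupp.single 1 1 = e then 1 else 0) := by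
  classical
  rw [f0, coeff_sub, coeff_X', coeff_X']

private theorem pb_coeff0 : coeff (Finsupp.single 0 1) (f0 k m) = 1 := by
  rw [pb_coeff, if_pos rfl, if_neg (pb_ne m).symm, sub_zero]

private theorem pb_coeff1 : coeff (Finsupp.single 1 1) (f0 k m) = -1 := by
  rw [pb_coeff, if_neg (pb_ne m), if_pos rfl, zero_sub]

theorem f0_support [DecidableEq (Fin (m + 2) →₀ ℕ)] : (f0 k m).support =
    {Finsupp.single 0 1, Finsupp.single 1 1} := by
  ext e
  rw [mem_support_iff, Finset.mem_insert, Finset.mem_singleton]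
  constructor
  · intro h
    by_contra hcon
    push Not at hcon
    apply h
    rw [pb_coeff, if_neg (fun h => hcon.1 h.symm), if_neg (fun h => hcon.2 h.symm), sub_zero]
  · rintro (rfl | rfl)
    · rw [pb_coeff0]
      exact one_ne_zero
    · rw [pb_coeff1]
      exact neg_ne_zero.2 one_ne_zero

private theorem pb_sum (w : Fin (m + 2) → ℝ) (i : Fin (m + 2)) :
    ∑ j, w j * ((Finsupp.single i 1 : Fin (m + 2) →₀ ℕ) j : ℝ) = w i := by
  rw [Finset.sum_eq_single i]
  · simp
  · intro j _ hj
    rw [Finsupp.single_eq_of_ne hj]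
    simp
  · intro h
    exact absurd (Finset.mem_univ i) h

private theorem pb_init (w : Fin (m + 2) → ℝ) : initForm (f0 k m) w =
    (if w 0 ≤ w 1 then X 0 else 0) - (if w 1 ≤ w 0 then X 1 else 0) := by
  classical
  have hs := f0_support k m
  unfold initForm
  rw [Finset.sum_filter]
  have key : ∀ e : Fin (m + 2) →₀ ℕ, (∀ m' ∈ (f0 k m).support, ∑ i, w i * (e i : ℝ) ≤ ∑ i, w i * (m' i : ℝ)) ↔
      (∑ i, w i * (e i : ℝ) ≤ w 0 ∧ ∑ i, w i * (e i : ℝ) ≤ w 1) := by
    intro e
    rw [hs]
    constructor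
    · intro h
      have h0 := h (Finsupp.single 0 1) (by simp)
      have h1 := h (Finsupp.single 1 1) (by simp)
      rw [pb_sum] at h0 h1
      exact ⟨h0, h1⟩
    · rintro ⟨h0, h1⟩ m' hm'
      rw [Finset.mem_insert, Finset.mem_singleton] at hm'
      rcases hm' with rfl | rfl
      · rw [pb_sum]; exact h0
      · rw [pb_sum]; exact h1
  have h2 : ∀ e ∈ (f0 k m).support,
      (if ∀ m' ∈ (f0 k m).support, ∑ i, w i * (e i : ℝ) ≤ ∑ i, w i * (m' i : ℝ) then
        monomial e (coeff e (f0 k m)) else 0) =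
      if (∑ i, w i * (e i : ℝ) ≤ w 0 ∧ ∑ i, w i * (e i : ℝ) ≤ w 1) then
        monomial e (coeff e (f0 k m)) else 0 := by
    intro e _
    simp only [key e]
  rw [Finset.sum_congr rfl h2, hs, Finset.sum_pair (pb_ne m), pb_sum, pb_sum, pb_coeff0, pb_coeff1]
  by_cases h01 : w 0 ≤ w 1 <;> by_cases h10 : w 1 ≤ w 0
  · simp [h01, h10, X, sub_eq_add_neg]
  · simp [h01, h10, X]
  · simp [h01, h10, X]
  · exact absurd (le_total (w 0) (w 1)) (by tauto)

theorem f0_nondeg : Nondeg (f0 k m) := by
  intro w _ y _ _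
  rw [pb_init]
  by_cases h01 : w 0 ≤ w 1
  · refine ⟨0, ?_⟩
    by_cases h10 : w 1 ≤ w 0
    · rw [if_pos h01, if_pos h10, map_sub, pderiv_X_self, pderiv_X_of_ne (by simp)]
      simp
    · rw [if_pos h01, if_neg h10, sub_zero, pderiv_X_self]
      simp
  · have h10 : w 1 ≤ w 0 := by
      rcases le_total (w 0) (w 1) with h | h
      · exact absurd h h01
      · exact h
    refine ⟨1, ?_⟩
    rw [if_neg h01, if_pos h10, zero_sub, map_neg, pderiv_X_self]
    simp

/-- `α(w) = ∑ w_i - min (w_0, w_1)`. -/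
theorem isAl_f0 (w : Fin (m + 2) → ℝ) (a : ℝ) :
    IsAl (f0 k m).support w a ↔ a = ∑ i, w i - min (w 0) (w 1) := by
  classical
  rw [f0_support k m]
  have p0 : pairN w (Finsupp.single 0 1) = w 0 := pb_sum m w 0
  have p1 : pairN w (Finsupp.single 1 1) = w 1 := pb_sum m w 1
  constructor
  · rintro ⟨⟨e, he, ha⟩, hle⟩
    have h0 := hle (Finsupp.single 0 1) (by simp)
    have h1 := hle (Finsupp.single 1 1) (by simp)
    rw [p0] at h0
    rw [p1] at h1
    rw [Finset.mem_insert, Finset.mem_singleton] at he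
    rcases he with rfl | rfl
    · rw [p0] at ha
      rw [ha, min_eq_left (by linarith)]
    · rw [p1] at ha
      rw [ha, min_eq_right (by linarith)]
  · intro ha
    refine ⟨?_, ?_⟩
    · rcases le_total (w 0) (w 1) with h | h
      · exact ⟨Finsupp.single 0 1, by simp, by rw [ha, p0, min_eq_left h]⟩
      · exact ⟨Finsupp.single 1 1, by simp, by rw [ha, p1, min_eq_right h]⟩
    · intro e he
      rw [Finset.mem_insert, Finset.mem_singleton] at he
      rcases he with rfl | rfl
      · rw [p0, ha]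
        have := min_le_left (w 0) (w 1)
        linarith
      · rw [p1, ha]
        have := min_le_right (w 0) (w 1)
        linarith

end Pool.Agent.GPL
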