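import Pool.Agent.GPL.Pa

namespace Pool.Agent.GPL

open MvPolynomial Pool.Agent.GAP

universe u

variable (k : Type u) [Field k] (m : ℕ)

theorem grp_fin {n : ℕ} {r : ℕ} (hr : 0 < r) (a : Fin n → ℕ) : Finite (grp k r a) := by
  have : NeZero r := ⟨hr.ne'⟩
  have h1 : Finite (rootsOfUnity r k) := inferInstance
  have h2 : ((rootsOfUnity r k : Subgroup kˣ) : Set kˣ).Finite := h1
  have h3 := h2.image (phi k a)
  exact h3

private theorem pc_elt {r : ℕ} {a : Fin (m + 1) → ℕ} {g : Fin (m + 2) → kˣ}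
    (hg : g ∈ grp k r (dbl a)) : ∃ ζ : kˣ, ζ ^ r = 1 ∧ g 0 = ζ ^ a 0 ∧ ∀ j : Fin (m + 1),
      g j.succ = ζ ^ a j := by
  obtain ⟨ζ, hζ, rfl⟩ := hg
  refine ⟨ζ, (mem_rootsOfUnity r ζ).1 hζ, rfl, fun j => ?_⟩
  change ζ ^ (dbl a j.succ) = ζ ^ a j
  rw [dbl, Fin.cons_succ]

private theorem pc_const (p : MvPolynomial (Fin (m + 1)) k)
    (hp : p ∈ Ideal.span (Set.range fun i => pi0 k m (X i))) : constantCoeff p = 0 := by
  have h1 : Ideal.span (Set.range fun i => pi0 k m (X i)) ≤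
      RingHom.ker (constantCoeff : MvPolynomial (Fin (m + 1)) k →+* k) := by
    rw [Ideal.span_le]
    rintro _ ⟨i, rfl⟩
    change constantCoeff (pi0 k m (X i)) = 0
    rw [pi0, aeval_X]
    refine Fin.cases ?_ (fun j => ?_) i
    · rw [Fin.cons_zero, constantCoeff_X]
    · rw [Fin.cons_succ, constantCoeff_X]
  exact h1 hp

theorem f0_semi {r : ℕ} (a : Fin (m + 1) → ℕ) :
    ∀ g ∈ grp k r (dbl a), ∃ c : k, scale g (f0 k m) = C c * f0 k m := by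
  intro g hg
  obtain ⟨ζ, _, h0, hs⟩ := pc_elt k m hg
  have h1 : g 1 = ζ ^ a 0 := hs 0
  refine ⟨((ζ ^ a 0 : kˣ) : k), ?_⟩
  rw [f0, map_sub, scale, aeval_X, aeval_X, h0, h1, mul_sub]

theorem poly_normal : ∀ z : FractionRing (MvPolynomial (Fin (m + 1)) k),
    IsIntegral (MvPolynomial (Fin (m + 1)) k) z →
    ∃ b s : MvPolynomial (Fin (m + 1)) k,
      s ∉ Ideal.span (Set.range fun i => pi0 k m (X i)) ∧
      z * algebraMap _ (FractionRing (MvPolynomial (Fin (m + 1)) k)) s = algebraMap _ _ b := by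
  intro z hz
  obtain ⟨b, hb⟩ := IsIntegrallyClosed.isIntegral_iff.1 hz
  refine ⟨b, 1, ?_, ?_⟩
  · intro h
    have h1 := pc_const k m 1 h
    rw [map_one] at h1
    exact one_ne_zero h1
  · rw [map_one, mul_one, hb]

theorem grp_free {r : ℕ} (a : Fin (m + 1) → ℕ)
    (hfree : ∀ ζ : kˣ, ζ ^ r = 1 → ζ ≠ 1 → ζ ^ a 0 ≠ 1 ∧ ∃ j : Fin (m + 1), j ≠ 0 ∧ ζ ^ a j ≠ 1) :
    ∀ q : Ideal (MvPolynomial (Fin (m + 1)) k), q.IsPrime →
      q ≤ Ideal.span (Set.range fun i => pi0 k m (X i)) → q ≠ ⊥ →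
      (∀ q' : Ideal (MvPolynomial (Fin (m + 1)) k), q'.IsPrime → q' ≤ q → q' = ⊥ ∨ q' = q) →
      ∀ g ∈ grp k r (dbl a), g ≠ 1 → ∃ i, g i ≠ 1 ∧ pi0 k m (X i) ∉ q := by
  intro q hq _ _ hmin g hg hg1
  obtain ⟨ζ, hζ, h0, hs⟩ := pc_elt k m hg
  have hζ1 : ζ ≠ 1 := by
    intro h
    apply hg1
    funext i
    refine Fin.cases ?_ (fun j => ?_) i
    · rw [h0, h, one_pow]
      rfl
    · rw [hs, h, one_pow]
      rfl
  obtain ⟨h1, j, hj0, hj⟩ := hfree ζ hζ hζ1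
  by_cases hx : (X 0 : MvPolynomial (Fin (m + 1)) k) ∈ q
  · refine ⟨j.succ, by rw [hs]; exact hj, ?_⟩
    rw [pi0, aeval_X, Fin.cons_succ]
    intro hjq
    have hXp : (Ideal.span {(X 0 : MvPolynomial (Fin (m + 1)) k)}).IsPrime :=
      (Ideal.span_singleton_prime (X_ne_zero 0)).2 X_prime
    rcases hmin _ hXp ((Ideal.span_singleton_le_iff_mem q).2 hx) with h | h
    · rw [Ideal.span_singleton_eq_bot] at h
      exact X_ne_zero 0 h
    · rw [← h, Ideal.mem_span_singleton] at hjq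
      rw [X_dvd_X] at hjq
      exact hj0 hjq.symm
  · refine ⟨0, by rw [h0]; exact h1, ?_⟩
    rw [pi0, aeval_X, Fin.cons_zero]
    exact hx

end Pool.Agent.GPL
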