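import Pool.Agent.GPL.Num
import Pool.Agent.GPL.Pb
import Pool.Agent.GPL.Pc
import Pool.Agent.GPL.Du
import Pool.Agent.GPL.Ml

/-! The quotient as a hyperquotient, and its minimal log discrepancy. -/

namespace Pool.Agent.GPL

open MvPolynomial Pool.Agent.GAP

universe u w

/-- The quotient as a hyperquotient. -/
noncomputable def quo (k : Type u) [Field k] {m : ℕ} {r : ℕ} (hr : 0 < r) (a : Fin (m + 1) → ℕ)
    (hfree : ∀ ζ : kˣ, ζ ^ r = 1 → ζ ≠ 1 → ζ ^ a 0 ≠ 1 ∧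
      ∃ j : Fin (m + 1), j ≠ 0 ∧ ζ ^ a j ≠ 1) :
    Hyperquotient k (m + 2) (MvPolynomial (Fin (m + 1)) k) where
  f := f0 k m
  G := grp k r (dbl a)
  π := pi0 k m
  surj := pi0_surj k m
  ker := pi0_ker k m
  fin := grp_fin k hr (dbl a)
  irr := f0_irr k m
  zero := f0_zero k m
  nvar := f0_nvar k m
  semi := f0_semi k m a
  nondeg := f0_nondeg k m
  normal := poly_normal k m
  free := grp_free k m a hfree

theorem pi0_X_succ (k : Type u) [Field k] {m : ℕ} (i : Fin (m + 1)) :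
    pi0 k m (X i.succ) = X i := by
  unfold pi0
  rw [aeval_X, Fin.cons_succ]

theorem pi0_X_zero (k : Type u) [Field k] {m : ℕ} : pi0 k m (X 0) = X 0 := by
  unfold pi0
  rw [aeval_X, Fin.cons_zero]

theorem pi0_scale (k : Type u) [Field k] {m : ℕ} (a : Fin (m + 1) → ℕ) (ζ : kˣ)
    (b : MvPolynomial (Fin (m + 1)) k) :
    pi0 k m (scale (phi k (dbl a) ζ) (rename Fin.succ b)) =
      aeval (fun i => C ((ζ : k) ^ a i) * X i) b := by
  have h : ((pi0 k m).comp ((scale (phi k (dbl a) ζ)).comp (rename Fin.succ))) =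
      aeval (fun i => C ((ζ : k) ^ a i) * X i) := by
    apply MvPolynomial.algHom_ext
    intro i
    rw [AlgHom.comp_apply, AlgHom.comp_apply, rename_X, aeval_X]
    unfold scale
    rw [aeval_X, map_mul, pi0_X_succ]
    congr 1
    have h1 : ((phi k (dbl a) ζ i.succ : kˣ) : k) = (ζ : k) ^ a i := by
      change ((ζ ^ (dbl a i.succ) : kˣ) : k) = _
      rw [Units.val_pow_eq_pow_val]
      rfl
    rw [h1]
    exact AlgHom.commutes (pi0 k m) _
  exact DFunLike.congr_fun h b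

theorem pi0_rn (k : Type u) [Field k] {m : ℕ} (b : MvPolynomial (Fin (m + 1)) k) :
    pi0 k m (rename Fin.succ b) = b := by
  have h : (pi0 k m).comp (rename Fin.succ) = AlgHom.id k _ := by
    apply MvPolynomial.algHom_ext
    intro i
    rw [AlgHom.comp_apply, rename_X, pi0_X_succ]
    rfl
  exact DFunLike.congr_fun h b

theorem quo_A (k : Type u) [Field k] {m : ℕ} {r : ℕ} (hr : 0 < r) (a : Fin (m + 1) → ℕ)
    (hfree : ∀ ζ : kˣ, ζ ^ r = 1 → ζ ≠ 1 → ζ ^ a 0 ≠ 1 ∧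
      ∃ j : Fin (m + 1), j ≠ 0 ∧ ζ ^ a j ≠ 1) :
    inv k r a = (quo k hr a hfree).A := by
  ext b
  constructor
  · intro hb g hg p hp
    obtain ⟨ζ, hζ, rfl⟩ := hg
    have h1 : (quo k hr a hfree).π p = (quo k hr a hfree).π (rename Fin.succ b) := by
      rw [hp]
      exact (pi0_rn k b).symm
    rw [(quo k hr a hfree).scale_congr ⟨ζ, hζ, rfl⟩ h1]
    refine (pi0_scale k a ζ b).trans (hb ζ ?_)
    have h2 : ζ ^ r = 1 := hζ
    have h3 := congrArg Units.val h2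
    rw [Units.val_pow_eq_pow_val, Units.val_one] at h3
    exact h3
  · intro hb ζ hζ
    have hne : ζ ≠ 0 := by
      rintro rfl
      rw [zero_pow (by omega)] at hζ
      exact zero_ne_one hζ
    have hu : (Units.mk0 ζ hne) ∈ rootsOfUnity r k := by
      rw [mem_rootsOfUnity]
      ext
      rw [Units.val_pow_eq_pow_val]
      exact hζ
    have h1 := hb (phi k (dbl a) (Units.mk0 ζ hne)) ⟨_, hu, rfl⟩ (rename Fin.succ b)
      (pi0_rn k b)
    exact (pi0_scale k a (Units.mk0 ζ hne) b).symm.trans h1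

theorem range_X (k : Type u) [Field k] {m : ℕ} :
    (Set.range fun i : Fin (m + 1) => (X i : MvPolynomial (Fin (m + 1)) k)) =
      Set.range fun i : Fin (m + 2) => pi0 k m (X i) := by
  ext z
  constructor
  · rintro ⟨i, rfl⟩
    exact ⟨i.succ, pi0_X_succ k i⟩
  · rintro ⟨i, rfl⟩
    refine Fin.cases ?_ (fun i => ?_) i
    · exact ⟨0, (pi0_X_zero k).symm⟩
    · exact ⟨i, (pi0_X_succ k i).symm⟩

/-- The minimal log discrepancy, for the hyperquotient. -/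
theorem mld_quo (k : Type u) [Field k] [IsAlgClosed k] [CharZero k] {m : ℕ} {r : ℕ} (hr : 0 < r)
    (a : Fin (m + 1) → ℕ)
    (hfree : ∀ ζ : kˣ, ζ ^ r = 1 → ζ ≠ 1 → ζ ^ a 0 ≠ 1 ∧
      ∃ j : Fin (m + 1), j ≠ 0 ∧ ζ ^ a j ≠ 1)
    (hco : Nat.Coprime (a 0) r) (hpos : ∀ i, 1 ≤ a i) (hsum : ∑ i, (a i : ℤ) = (r : ℤ) - 1)
    (hnum : ∀ (z : ℤ) (y : Fin (m + 1) → ℤ), (∀ i, 1 ≤ y i) →
      (∀ i, (r : ℤ) ∣ y i - z * a i) → (r : ℤ) - 1 ≤ ∑ i, y i)
    (K : Type w) [Field K] [Algebra k K] [Algebra (quo k hr a hfree).A K]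
    [IsScalarTower k (quo k hr a hfree).A K] [IsFractionRing (quo k hr a hfree).A K]
    (D : Canonical k K (quo k hr a hfree).P (m + 1)) :
    D.mld = ((1 - 1 / (r : ℝ) : ℝ) : EReal) := by
  have hr0 : (0 : ℝ) < r := by exact_mod_cast hr
  have hr1 : (1 : ℝ) ≤ r := by exact_mod_cast hr
  have hge : ((1 - 1 / (r : ℝ) : ℝ) : EReal) ≤ D.mld := by
    by_contra hcon
    push Not at hcon
    obtain ⟨w, hw, hwpos, α, hα, hlt⟩ := hq_lower (quo k hr a hfree) K D hcon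
    obtain ⟨z, y, hy⟩ := dual_cong k hr a hco hw
    have hα' : α = ∑ i, w i - min (w 0) (w 1) := (isAl_f0 k m w α).1 hα
    have hy1 : ∀ i, 1 ≤ y i := by
      intro i
      have h1 := hwpos i
      rw [(hy i).1] at h1
      have h2 : (0 : ℝ) < y i := by
        by_contra h
        push Not at h
        exact absurd h1 (not_lt.2 (div_nonpos_of_nonpos_of_nonneg h hr0.le))
      have h3 : (0 : ℤ) < y i := by exact_mod_cast h2
      omega
    have h1 := hnum z (fun i => y i.succ) (fun i => hy1 i.succ) (fun i => (hy i.succ).2)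
    have h2 : ((r : ℝ) - 1) ≤ ∑ i : Fin (m + 1), (y i.succ : ℝ) := by exact_mod_cast h1
    have h3 : ∑ i, w i = w 0 + (∑ i : Fin (m + 1), (y i.succ : ℝ)) / r := by
      rw [Fin.sum_univ_succ, Finset.sum_div]
      congr 1
      exact Finset.sum_congr rfl fun i _ => (hy i.succ).1
    have h4 : min (w 0) (w 1) ≤ w 0 := min_le_left _ _
    have h5 : 1 - 1 / (r : ℝ) ≤ (∑ i : Fin (m + 1), (y i.succ : ℝ)) / r := by
      rw [le_div_iff₀ hr0, sub_mul, div_mul_cancel₀ _ hr0.ne', one_mul]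
      exact h2
    rw [hα', h3] at hlt
    linarith
  refine le_antisymm ?_ hge
  have hα : IsAl (quo k hr a hfree).f.support (fun i => ((dbl a i : ℕ) : ℝ) / r)
      (1 - 1 / (r : ℝ)) := by
    refine (isAl_f0 k m _ _).2 ?_
    have h1 : ((dbl a 0 : ℕ) : ℝ) = ((dbl a 1 : ℕ) : ℝ) := rfl
    rw [← h1, min_self, Fin.sum_univ_succ, add_sub_cancel_left, ← Finset.sum_div]
    have h2 : ∑ i : Fin (m + 1), ((dbl a i.succ : ℕ) : ℝ) = (r : ℝ) - 1 := by
      have h3 : ∑ i : Fin (m + 1), ((a i : ℕ) : ℝ) = (r : ℝ) - 1 := by exact_mod_cast hsum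
      rw [← h3]
      rfl
    rw [h2, sub_div, div_self hr0.ne']
  have hwp : ∀ i : Fin (m + 2), 0 < ((dbl a i : ℕ) : ℝ) / r := by
    intro i
    refine div_pos ?_ hr0
    have : 1 ≤ dbl a i := by
      refine Fin.cases ?_ (fun i => ?_) i
      · exact hpos 0
      · exact hpos i
    exact_mod_cast this
  rcases hq_upper (quo k hr a hfree) K D (dual_mem k hr a) hwp hα (by
    have : 0 ≤ 1 / (r : ℝ) := by positivity
    linarith) with h | h
  · exact h
  · exfalso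
    have h1 : (0 : EReal) ≤ ((1 - 1 / (r : ℝ) : ℝ) : EReal) := by
      have h2 : (0 : ℝ) ≤ 1 - 1 / (r : ℝ) := by
        rw [sub_nonneg, div_le_one hr0]
        exact hr1
      exact_mod_cast h2
    exact absurd (h.trans_le (h1.trans hge)) (lt_irrefl _)

theorem mld_aux (k : Type u) [Field k] [IsAlgClosed k] [CharZero k] {m : ℕ} {r : ℕ} (hr : 0 < r)
    (a : Fin (m + 1) → ℕ)
    (hfree : ∀ ζ : kˣ, ζ ^ r = 1 → ζ ≠ 1 → ζ ^ a 0 ≠ 1 ∧
      ∃ j : Fin (m + 1), j ≠ 0 ∧ ζ ^ a j ≠ 1)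
    (hco : Nat.Coprime (a 0) r) (hpos : ∀ i, 1 ≤ a i) (hsum : ∑ i, (a i : ℤ) = (r : ℤ) - 1)
    (hnum : ∀ (z : ℤ) (y : Fin (m + 1) → ℤ), (∀ i, 1 ≤ y i) →
      (∀ i, (r : ℤ) ∣ y i - z * a i) → (r : ℤ) - 1 ≤ ∑ i, y i)
    (A : Subalgebra k (MvPolynomial (Fin (m + 1)) k)) (hA : A = (quo k hr a hfree).A)
    (K : Type w) [Field K] [Algebra k K] [Algebra A K] [IsScalarTower k A K]
    [IsFractionRing A K] :
    Nonempty (Canonical k K ((Ideal.span (Set.range fun i : Fin (m + 1) =>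
      (X i : MvPolynomial (Fin (m + 1)) k))).comap A.val) (m + 1)) ∧
      ∀ D : Canonical k K ((Ideal.span (Set.range fun i : Fin (m + 1) =>
        (X i : MvPolynomial (Fin (m + 1)) k))).comap A.val) (m + 1),
        D.mld = ((1 - 1 / (r : ℝ) : ℝ) : EReal) := by
  subst hA
  have hP : (Ideal.span (Set.range fun i : Fin (m + 1) =>
      (X i : MvPolynomial (Fin (m + 1)) k))).comap (quo k hr a hfree).A.val =
      (quo k hr a hfree).P := by
    rw [range_X]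
    rfl
  rw [hP]
  exact ⟨exists_canonical (quo k hr a hfree) K, fun D =>
    mld_quo k hr a hfree hco hpos hsum hnum K D⟩

/-- The minimal log discrepancy, in combinatorial form. -/
theorem mld_eq (k : Type u) [Field k] [IsAlgClosed k] [CharZero k] {m : ℕ} {r : ℕ} (hr : 0 < r)
    (a : Fin (m + 1) → ℕ)
    (hfree : ∀ ζ : kˣ, ζ ^ r = 1 → ζ ≠ 1 → ζ ^ a 0 ≠ 1 ∧
      ∃ j : Fin (m + 1), j ≠ 0 ∧ ζ ^ a j ≠ 1)
    (hco : Nat.Coprime (a 0) r) (hpos : ∀ i, 1 ≤ a i) (hsum : ∑ i, (a i : ℤ) = (r : ℤ) - 1)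
    (hnum : ∀ (z : ℤ) (y : Fin (m + 1) → ℤ), (∀ i, 1 ≤ y i) →
      (∀ i, (r : ℤ) ∣ y i - z * a i) → (r : ℤ) - 1 ≤ ∑ i, y i)
    (K : Type w) [Field K] [Algebra k K] [Algebra (inv k r a) K] [IsScalarTower k (inv k r a) K]
    [IsFractionRing (inv k r a) K] :
    Nonempty (Canonical k K (pt k r a) (m + 1)) ∧
      ∀ D : Canonical k K (pt k r a) (m + 1), D.mld = ((1 - 1 / (r : ℝ) : ℝ) : EReal) :=
  mld_aux k hr a hfree hco hpos hsum hnum (inv k r a) (quo_A k hr a hfree) K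

end Pool.Agent.GPL
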