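import Pool.Agent.GPL.Defs

namespace Pool.Agent.GPL

theorem S_pos (e : ℕ) : 1 ≤ S e := by
  induction e with
  | zero => exact le_rfl
  | succ n ih => exact Nat.mul_pos ih (by omega)

theorem S_dvd (e : ℕ) : ∀ i, i < e → (S i + 1) ∣ S e := by
  induction e with
  | zero => intro i hi; omega
  | succ n ih =>
    intro i hi
    rcases Nat.lt_succ_iff_lt_or_eq.1 hi with h | h
    · exact Dvd.dvd.mul_right (ih i h) _
    · subst h
      exact Dvd.intro_left _ rfl

theorem S_sum (e : ℕ) : ∑ i : Fin e, (((S e / (S i + 1) : ℕ)) : ℤ) = (S e : ℤ) - 1 := by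
  induction e with
  | zero => simp [S]
  | succ n ih =>
    rw [Fin.sum_univ_castSucc]
    have h1 : ∀ i : Fin n, ((S (n + 1) / (S (Fin.castSucc i : Fin (n+1)) + 1) : ℕ) : ℤ) =
        ((S n / (S i + 1) : ℕ) : ℤ) * (S n + 1) := by
      intro i
      have hd := S_dvd n i i.2
      have : S (n + 1) / (S i + 1) = S n / (S i + 1) * (S n + 1) := by
        change S n * (S n + 1) / (S i + 1) = _
        exact Nat.mul_div_right_comm hd (S n + 1)
      rw [Fin.val_castSucc, this]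
      push_cast
      ring
    rw [Finset.sum_congr rfl (fun i _ => h1 i), ← Finset.sum_mul, ih]
    have h2 : S (n + 1) / (S (Fin.last n) + 1) = S n := by
      change S n * (S n + 1) / (S n + 1) = _
      exact Nat.mul_div_cancel _ (by omega)
    rw [h2]
    change ((S n : ℤ) - 1) * (S n + 1) + S n = ((S n * (S n + 1) : ℕ) : ℤ) - 1
    push_cast
    ring

theorem ord_div (e : ℕ) (i : Fin e) : ord e / (S i + 1) = S e / (S i + 1) * R e := by
  have hd := S_dvd e i i.2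
  unfold ord
  exact Nat.mul_div_right_comm hd (R e)

theorem sum_wt (e : ℕ) : ∑ i, (wt e i : ℤ) = (ord e : ℤ) - 1 := by
  have hS := S_pos e
  have h3 : S e ≤ S e ^ 3 := Nat.le_self_pow (by norm_num) _
  rw [Fin.sum_univ_succ, Fin.sum_univ_succ]
  have h1 : ∀ i : Fin e, ((wt e i.succ.succ : ℕ) : ℤ) = ((S e / (S i + 1) : ℕ) : ℤ) * R e := by
    intro i
    change ((ord e / (S i + 1) : ℕ) : ℤ) = _
    rw [ord_div]
    push_cast
    ring
  rw [Finset.sum_congr rfl (fun i _ => h1 i), ← Finset.sum_mul, S_sum]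
  change ((S e ^ 3 + 1 - S e : ℕ) : ℤ) + (((S e ^ 2 + S e - 1 : ℕ) : ℤ) + _) = _
  rw [Nat.cast_sub (by omega), Nat.cast_sub (by nlinarith)]
  unfold ord R
  push_cast
  ring

theorem wt_pos (e : ℕ) (i : Fin (e + 2)) : 1 ≤ wt e i := by
  have hS := S_pos e
  have h3 : S e ≤ S e ^ 3 := Nat.le_self_pow (by norm_num) _
  have h2 : 1 ≤ S e ^ 2 := Nat.one_le_pow _ _ hS
  refine Fin.cases ?_ (fun i => Fin.cases ?_ (fun i => ?_) i) i
  · change 1 ≤ S e ^ 3 + 1 - S e
    omega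
  · change 1 ≤ S e ^ 2 + S e - 1
    omega
  · change 1 ≤ ord e / (S i + 1)
    rw [ord_div]
    have hd := S_dvd e i i.2
    have : 0 < S e / (S i + 1) := Nat.div_pos (Nat.le_of_dvd hS hd) (by omega)
    exact Nat.mul_pos this (by unfold R; omega)

theorem ord_pos (e : ℕ) : 0 < ord e := Nat.mul_pos (S_pos e) (by unfold R; omega)

theorem coprime_wt (e : ℕ) : Nat.Coprime (wt e 0) (ord e) := by
  have hS := S_pos e
  have h3 : S e ≤ S e ^ 3 := Nat.le_self_pow (by norm_num) _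
  change Nat.Coprime (S e ^ 3 + 1 - S e) (S e * R e)
  generalize hs : S e = s at *
  have hR : R e = s ^ 3 + s ^ 2 + 1 := by unfold R; rw [hs]
  rw [hR]
  rw [← Nat.isCoprime_iff_coprime, Nat.cast_sub (by omega)]
  push_cast
  refine IsCoprime.mul_right ?_ ?_
  · -- u = 1 mod s
    refine ⟨1, 1 - (s : ℤ) ^ 2, ?_⟩
    ring
  · -- R - u = s (s + 1)
    -- u = s^3 - s + 1, R = s^3 + s^2 + 1 ; find A u + B R = 1
    have h1 : IsCoprime ((s : ℤ) ^ 3 + 1 - (s : ℤ)) ((s : ℤ) * ((s : ℤ) + 1)) :=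
      IsCoprime.mul_right ⟨1, 1 - (s : ℤ) ^ 2, by ring⟩ ⟨1, -(s : ℤ) ^ 2 + (s : ℤ), by ring⟩
    have h2 : (s : ℤ) ^ 3 + (s : ℤ) ^ 2 + 1 =
        (s : ℤ) * ((s : ℤ) + 1) + ((s : ℤ) ^ 3 + 1 - (s : ℤ)) * 1 := by ring
    rw [h2]
    exact IsCoprime.add_mul_left_right h1 1

theorem S_ge (e : ℕ) (he : 1 ≤ e) : 2 ^ (2 ^ (e - 1)) ≤ S e := by
  induction e with
  | zero => omega
  | succ n ih =>
    rcases Nat.eq_zero_or_pos n with h | h
    · subst h
      simp [S]
    · have h1 := ih h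
      change 2 ^ (2 ^ (n + 1 - 1)) ≤ S n * (S n + 1)
      have h2 : n + 1 - 1 = (n - 1) + 1 := by omega
      rw [h2, pow_succ, pow_mul]
      calc (2 ^ 2 ^ (n - 1)) ^ 2 ≤ S n ^ 2 := Nat.pow_le_pow_left h1 2
        _ ≤ S n * (S n + 1) := by nlinarith

theorem ord_ge (e : ℕ) (he : 1 ≤ e) : 2 ^ (2 ^ (e + 1)) ≤ ord e := by
  have h1 := S_ge e he
  have h2 : 2 ^ (2 ^ (e + 1)) = (2 ^ (2 ^ (e - 1))) ^ 4 := by
    rw [← pow_mul]
    congr 1
    have : e + 1 = (e - 1) + 2 := by omega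
    rw [this, pow_add]
    norm_num
  rw [h2]
  calc (2 ^ (2 ^ (e - 1))) ^ 4 ≤ S e ^ 4 := Nat.pow_le_pow_left h1 4
    _ ≤ ord e := by
      unfold ord R
      nlinarith [S_pos e]

theorem small_mult {R c : ℤ} (hR : 0 < R) (h1 : R * c < R) (h2 : -R < R * c) : c = 0 := by
  have h3 : c < 1 := by
    by_contra h
    push Not at h
    nlinarith
  have h4 : -1 < c := by
    by_contra h
    push Not at h
    nlinarith
  omega

/-- `E = y + p (s + 1) - v` is a multiple of `R` of absolute value less than `R`. -/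
theorem final_step (s p n y : ℤ) (hs : 1 ≤ s) (hp : 1 ≤ p) (hy : 1 ≤ y)
    (hple : p ≤ s ^ 2 + s - 1) (hle : y ≤ (s ^ 3 + s ^ 2 + 1) - (p * s + 1) - 1)
    (hE : y + p * (s + 1) - (s ^ 2 + s - 1) = (s ^ 3 + s ^ 2 + 1) * (p + s * n)) : False := by
  have h7 : 0 ≤ (p - 1) * (s + 1) := mul_nonneg (by omega) (by omega)
  have h8 : 0 < s ^ 3 := by positivity
  have hz : p + s * n = 0 := by
    refine small_mult (R := s ^ 3 + s ^ 2 + 1) (by positivity) ?_ ?_
    · rw [← hE]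
      linarith
    · rw [← hE]
      linarith
  rw [hz, mul_zero] at hE
  have hpm : p = s * (-n) := by linarith
  have hm : 1 ≤ -n := by
    by_contra h
    push Not at h
    have h8 : s * (-n) ≤ 0 := mul_nonpos_of_nonneg_of_nonpos (by omega) (by omega)
    omega
  rw [hpm] at hE
  have h9 : 0 ≤ s * (-n - 1) * (s + 1) :=
    mul_nonneg (mul_nonneg (by omega) (by omega)) (by omega)
  have h10 : s * (-n) * (s + 1) = s * (-n - 1) * (s + 1) + s ^ 2 + s := by ring
  rw [h10] at hE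
  linarith

theorem num (e : ℕ) (k : ℤ) (y : Fin (e + 2) → ℤ) (hy : ∀ i, 1 ≤ y i)
    (hk : ∀ i, (ord e : ℤ) ∣ y i - k * wt e i) : (ord e : ℤ) - 1 ≤ ∑ i, y i := by
  have hS := S_pos e
  have h3 : S e ≤ S e ^ 3 := Nat.le_self_pow (by norm_num) _
  have hr := ord_pos e
  -- reduce `k` modulo `r`
  obtain ⟨k0, hk0, hk1, hk2⟩ : ∃ k0 : ℤ, 0 ≤ k0 ∧ k0 < ord e ∧ (ord e : ℤ) ∣ k - k0 :=
    ⟨k % ord e, Int.emod_nonneg _ (by omega), Int.emod_lt_of_pos _ (by omega),
      Int.dvd_self_sub_emod⟩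
  have hk' : ∀ i, (ord e : ℤ) ∣ y i - k0 * wt e i := by
    intro i
    have : y i - k0 * wt e i = (y i - k * wt e i) + (k - k0) * wt e i := by ring
    rw [this]
    exact dvd_add (hk i) (Dvd.dvd.mul_right hk2 _)
  clear hk hk2
  -- the sum modulo `r`
  have hsum : (ord e : ℤ) ∣ ∑ i, y i + k0 := by
    have h1 : ∑ i, y i + k0 = ∑ i, (y i - k0 * wt e i) + k0 * ord e := by
      rw [Finset.sum_sub_distrib, ← Finset.mul_sum, sum_wt]
      ring
    rw [h1]
    exact dvd_add (Finset.dvd_sum fun i _ => hk' i) (Dvd.intro_left _ rfl)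
  have hpos : 1 ≤ ∑ i, y i := by
    have : y 0 ≤ ∑ i, y i := Finset.single_le_sum (f := y) (fun i _ => by have := hy i; omega)
      (Finset.mem_univ 0)
    have := hy 0
    omega
  by_contra hcon
  push Not at hcon
  obtain ⟨c, hc⟩ := hsum
  -- `∑ y = r - k0`, `k0 ≥ 2`
  have hc1 : c = 1 := by
    have h1 : 0 < (ord e : ℤ) * c := by omega
    have h2 : (ord e : ℤ) * c < ord e * 2 := by omega
    have h3' : 0 < c := by
      by_contra h
      push Not at h
      nlinarith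
    have h4 : c < 2 := by
      by_contra h
      push Not at h
      nlinarith
    omega
  subst hc1
  rw [mul_one] at hc
  have hk3 : 2 ≤ k0 := by omega
  -- the part of the Sylvester numbers
  rw [Fin.sum_univ_succ, Fin.sum_univ_succ] at hc
  set s : ℤ := (S e : ℤ) with hs
  have hord : (ord e : ℤ) = s * (s ^ 3 + s ^ 2 + 1) := by
    unfold ord R
    push_cast
    rfl
  have hs1 : 1 ≤ s := by omega
  have hRpos : 0 < s ^ 3 + s ^ 2 + 1 := by positivity
  have hT : ∀ i : Fin e, ∃ t : ℤ, 1 ≤ t ∧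
      y i.succ.succ = ((S e / (S i + 1) : ℕ) : ℤ) * (s ^ 3 + s ^ 2 + 1) * t ∧
      ((S i + 1 : ℕ) : ℤ) ∣ t - k0 := by
    intro i
    have hd := S_dvd e i i.2
    obtain ⟨q, hq⟩ := hd
    have hqd : S e / (S i + 1) = q := by
      rw [hq]
      exact Nat.mul_div_cancel_left _ (by omega)
    have hq0 : 0 < q := by
      rcases Nat.eq_zero_or_pos q with h | h
      · subst h
        omega
      · exact h
    have hw : ((wt e i.succ.succ : ℕ) : ℤ) = (q : ℤ) * (s ^ 3 + s ^ 2 + 1) := by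
      change ((ord e / (S i + 1) : ℕ) : ℤ) = _
      rw [ord_div, hqd]
      unfold R
      push_cast
      rfl
    obtain ⟨n, hn⟩ := hk' i.succ.succ
    rw [hw, hord] at hn
    have hsq : s = ((S i + 1 : ℕ) : ℤ) * q := by
      rw [hs, hq]
      push_cast
      ring
    refine ⟨k0 + ((S i + 1 : ℕ) : ℤ) * n, ?_, ?_, ?_⟩
    · have h1 : y i.succ.succ = (q : ℤ) * (s ^ 3 + s ^ 2 + 1) * (k0 + ((S i + 1 : ℕ) : ℤ) * n) := by
        have : y i.succ.succ = k0 * (q * (s ^ 3 + s ^ 2 + 1)) +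
            s * (s ^ 3 + s ^ 2 + 1) * n := by linarith
        rw [this]
        conv_lhs => rw [show s * (s ^ 3 + s ^ 2 + 1) * n =
          (((S i + 1 : ℕ) : ℤ) * q) * (s ^ 3 + s ^ 2 + 1) * n by rw [← hsq]]
        ring
      have h2 := hy i.succ.succ
      by_contra h
      push Not at h
      have h4 : k0 + ((S i + 1 : ℕ) : ℤ) * n ≤ 0 := by omega
      have h5 : 0 < (q : ℤ) * (s ^ 3 + s ^ 2 + 1) := by positivity
      nlinarith
    · rw [hqd]
      have : y i.succ.succ = k0 * (q * (s ^ 3 + s ^ 2 + 1)) +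
          s * (s ^ 3 + s ^ 2 + 1) * n := by linarith
      rw [this]
      conv_lhs => rw [show s * (s ^ 3 + s ^ 2 + 1) * n =
        (((S i + 1 : ℕ) : ℤ) * q) * (s ^ 3 + s ^ 2 + 1) * n by rw [← hsq]]
      ring
    · exact ⟨n, by ring⟩
  choose t ht1 ht2 ht3 using hT
  set W : ℤ := ∑ i : Fin e, ((S e / (S i + 1) : ℕ) : ℤ) * t i with hW
  have hsumT : ∑ i : Fin e, y i.succ.succ = W * (s ^ 3 + s ^ 2 + 1) := by
    rw [hW, Finset.sum_mul]
    refine Finset.sum_congr rfl fun i _ => ?_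
    rw [ht2 i]
    ring
  have hWge : s - 1 ≤ W := by
    rw [hs, ← S_sum e, hW]
    refine Finset.sum_le_sum fun i _ => ?_
    have h1 := ht1 i
    have h2 : (0 : ℤ) ≤ ((S e / (S i + 1) : ℕ) : ℤ) := by positivity
    nlinarith
  have hWmod : s ∣ W + k0 := by
    have h1 : W + k0 = ∑ i : Fin e, ((S e / (S i + 1) : ℕ) : ℤ) * (t i - k0) + k0 * s := by
      simp only [mul_sub, Finset.sum_sub_distrib, ← Finset.sum_mul, S_sum e]
      rw [← hs, ← hW]
      ring
    rw [h1]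
    refine dvd_add (Finset.dvd_sum fun i _ => ?_) (Dvd.intro_left _ rfl)
    obtain ⟨n, hn⟩ := ht3 i
    rw [hn]
    have hd := S_dvd e i i.2
    refine ⟨n, ?_⟩
    rw [← mul_assoc]
    congr 1
    rw [hs]
    exact_mod_cast Nat.div_mul_cancel hd
  rw [hsumT, hord] at hc
  have hy0 := hy 0
  have hy1 := hy (Fin.succ 0)
  have hWlt : W < s := by
    by_contra h
    push Not at h
    nlinarith
  have hW1 : W = s - 1 := by omega
  obtain ⟨q, hq⟩ := hWmod
  -- `k0 = q' s + 1`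
  have hkq : k0 = (q - 1) * s + 1 := by
    rw [hW1] at hq
    linarith
  have hsum2 : y 0 + y (Fin.succ 0) = (s ^ 3 + s ^ 2 + 1) - k0 := by
    rw [hW1] at hc
    linarith
  set p : ℤ := q - 1 with hp
  have hp1 : 1 ≤ p := by
    by_contra h
    push Not at h
    nlinarith
  -- the second weight
  have hv : ((wt e (Fin.succ 0) : ℕ) : ℤ) = s ^ 2 + s - 1 := by
    change ((S e ^ 2 + S e - 1 : ℕ) : ℤ) = _
    rw [Nat.cast_sub (by nlinarith)]
    push_cast
    rfl
  have hple : p ≤ s ^ 2 + s - 1 := by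
    by_contra h
    push Not at h
    have h1 : s ^ 2 + s ≤ p := by omega
    nlinarith
  obtain ⟨n, hn⟩ := hk' (Fin.succ 0)
  rw [hv, hord, hkq] at hn
  have hE : y (Fin.succ 0) + p * (s + 1) - (s ^ 2 + s - 1) =
      (s ^ 3 + s ^ 2 + 1) * (p + s * n) := by
    linear_combination hn
  rw [hkq] at hsum2
  exact final_step s p n (y (Fin.succ 0)) hs1 hp1 hy1 hple (by linarith) hE

theorem two_moved (e : ℕ) {M : Type*} [CommGroup M] (ζ : M) (h : ζ ^ ord e = 1) (hne : ζ ≠ 1) :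
    ζ ^ wt e 0 ≠ 1 ∧ ∃ j : Fin (e + 2), j ≠ 0 ∧ ζ ^ wt e j ≠ 1 := by
  have key : ∀ a b : ℕ, Nat.Coprime a b → ζ ^ a = 1 → ζ ^ b = 1 → ζ = 1 := by
    intro a b hab h1 h2
    have h3 : orderOf ζ ∣ Nat.gcd a b :=
      Nat.dvd_gcd (orderOf_dvd_of_pow_eq_one h1) (orderOf_dvd_of_pow_eq_one h2)
    rw [hab] at h3
    exact orderOf_eq_one_iff.1 (Nat.dvd_one.1 h3)
  refine ⟨fun h0 => hne (key _ _ (coprime_wt e) h0 h), ?_⟩
  by_contra hcon
  push Not at hcon
  have hS := S_pos e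
  have h1 : ζ ^ (S e ^ 2 + S e - 1) = 1 := hcon (Fin.succ 0) (Fin.succ_ne_zero _)
  have h2 : ∀ i : Fin e, ζ ^ (S e / (S i + 1) * R e) = 1 := by
    intro i
    have := hcon i.succ.succ (Fin.succ_ne_zero _)
    rw [← ord_div]
    exact this
  have h3 : ζ ^ ((∑ i : Fin e, S e / (S i + 1)) * R e) = 1 := by
    rw [Finset.sum_mul, ← Finset.prod_pow_eq_pow_sum]
    exact Finset.prod_eq_one fun i _ => h2 i
  have h4 : (∑ i : Fin e, S e / (S i + 1)) + 1 = S e := by
    have := S_sum e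
    have h5 : ((∑ i : Fin e, S e / (S i + 1) : ℕ) : ℤ) = (S e : ℤ) - 1 := by
      push_cast
      push_cast at this
      exact this
    omega
  have h5 : ζ ^ R e = 1 := by
    have h6 : ζ ^ (S e * R e) = 1 := h
    rw [← h4, add_mul, pow_add, h3, one_mul, one_mul] at h6
    exact h6
  refine hne (key _ _ ?_ h1 h5)
  rw [← Nat.isCoprime_iff_coprime, Nat.cast_sub (by nlinarith)]
  unfold R
  push_cast
  generalize (S e : ℤ) = s
  -- `R = s v + s + 1`, `v = s (s + 1) - 1`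
  exact ⟨-(s ^ 2 + 1), s, by ring⟩

end Pool.Agent.GPL
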