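import Pool.Agent.GPL.Defs

/-! The polynomial `x_0 - x_1` in `m + 2` variables and the restriction to its zero set. -/

namespace Pool.Agent.GPL

open MvPolynomial Pool.Agent.GAP

universe u

variable (k : Type u) [Field k] (m : ℕ)

/-- The polynomial `x_0 - x_1`. -/
noncomputable def f0 : MvPolynomial (Fin (m + 2)) k := X 0 - X 1

/-- The restriction to `x_0 = x_1`. -/
noncomputable def pi0 : MvPolynomial (Fin (m + 2)) k →ₐ[k] MvPolynomial (Fin (m + 1)) k :=
  aeval (Fin.cons (X 0) X)

theorem pi0_rename (q : MvPolynomial (Fin (m + 1)) k) : pi0 k m (rename Fin.succ q) = q := by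
  unfold pi0
  rw [aeval_rename]
  have h : ((Fin.cons (X 0) X : Fin (m + 2) → MvPolynomial (Fin (m + 1)) k) ∘ Fin.succ) = X := by
    funext i
    simp
  rw [h, aeval_X_left_apply]

theorem pi0_surj : Function.Surjective (pi0 k m) := fun q =>
  ⟨rename Fin.succ q, pi0_rename k m q⟩

theorem pi0_f0 : pi0 k m (f0 k m) = 0 := by
  have h1 : (1 : Fin (m + 2)) = Fin.succ 0 := rfl
  unfold pi0 f0
  rw [map_sub, aeval_X, aeval_X, h1, Fin.cons_zero, Fin.cons_succ, sub_self]

theorem f0_dvd_sub (p : MvPolynomial (Fin (m + 2)) k) :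
    f0 k m ∣ p - rename Fin.succ (pi0 k m p) := by
  rw [← Ideal.mem_span_singleton, ← Ideal.Quotient.eq]
  have h : (Ideal.Quotient.mkₐ k (Ideal.span {f0 k m})) =
      (Ideal.Quotient.mkₐ k (Ideal.span {f0 k m})).comp ((rename Fin.succ).comp (pi0 k m)) := by
    refine MvPolynomial.algHom_ext fun i => ?_
    refine Fin.cases ?_ (fun i => ?_) i
    · have h1 : rename Fin.succ (pi0 k m (X 0)) = (X 1 : MvPolynomial (Fin (m + 2)) k) := by
        unfold pi0
        rw [aeval_X, Fin.cons_zero, rename_X]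
        rfl
      show Ideal.Quotient.mk (Ideal.span {f0 k m}) (X 0) =
        Ideal.Quotient.mk (Ideal.span {f0 k m}) (rename Fin.succ (pi0 k m (X 0)))
      rw [h1, Ideal.Quotient.eq, Ideal.mem_span_singleton]
      exact dvd_rfl
    · have h1 : rename Fin.succ (pi0 k m (X i.succ)) =
          (X i.succ : MvPolynomial (Fin (m + 2)) k) := by
        unfold pi0
        rw [aeval_X, Fin.cons_succ, rename_X]
      show Ideal.Quotient.mk (Ideal.span {f0 k m}) (X i.succ) =
        Ideal.Quotient.mk (Ideal.span {f0 k m}) (rename Fin.succ (pi0 k m (X i.succ)))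
      rw [h1]
  exact DFunLike.congr_fun h p

theorem pi0_ker (p : MvPolynomial (Fin (m + 2)) k) : pi0 k m p = 0 ↔ f0 k m ∣ p := by
  constructor
  · intro h
    have h1 := f0_dvd_sub k m p
    rwa [h, map_zero, sub_zero] at h1
  · rintro ⟨q, rfl⟩
    rw [map_mul, pi0_f0, zero_mul]

theorem f0_ne_zero : f0 k m ≠ 0 := by
  intro h
  have h1 := congrArg (eval (Pi.single 0 1 : Fin (m + 2) → k)) h
  simp [f0] at h1

theorem f0_prime : Prime (f0 k m) := by
  rw [← Ideal.span_singleton_prime (f0_ne_zero k m)]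
  have h : Ideal.span {f0 k m} = RingHom.ker (pi0 k m) := by
    ext p
    rw [Ideal.mem_span_singleton, RingHom.mem_ker, pi0_ker]
  rw [h]
  exact RingHom.ker_isPrime _

theorem f0_irr : Irreducible (f0 k m) := (f0_prime k m).irreducible

theorem f0_zero : constantCoeff (f0 k m) = 0 := by
  simp [f0]

theorem f0_nvar (i : Fin (m + 2)) : ¬ (X i ∣ f0 k m) := by
  rintro ⟨q, hq⟩
  by_cases h : i = 0
  · subst h
    have h1 := congrArg (eval (Pi.single 1 1 : Fin (m + 2) → k)) hq
    simp [f0] at h1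
  · have h1 := congrArg (eval (Pi.single 0 1 : Fin (m + 2) → k)) hq
    simp [f0, h] at h1

end Pool.Agent.GPL
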